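import Mathlib

/-! The number of patterns of a monotone function along the progressions `u + c i * v`. -/

namespace Pool.Agent.MP_a31471_co.Big

open Finset

lemma card_le_of_no_three {α : Type*} [Fintype α] [DecidableEq α] (𝒜 : Finset (Finset α))
    (h : ∀ s, 𝒜.Shatters s → s.card ≤ 2) : 𝒜.card ≤ (Fintype.card α + 1) ^ 2 := by
  have h1 : 𝒜.vcDim ≤ 2 := Finset.sup_le fun s hs => h s (mem_shatterer.1 hs)
  refine (card_le_card_shatterer 𝒜).trans (card_shatterer_le_sum_vcDim.trans ?_)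
  refine (sum_le_sum_of_subset (Iic_subset_Iic.2 h1)).trans ?_
  have h2 : Iic 2 = ({0, 1, 2} : Finset ℕ) := by decide
  rw [h2, sum_insert (by simp), sum_insert (by simp), sum_singleton, Nat.choose_zero_right,
    Nat.choose_one_right]
  have h3 := Nat.choose_le_pow (Fintype.card α) 2
  nlinarith

/-- A monotone function takes few patterns of values on the points `u + c i * v`. -/
theorem pattern_count {k : ℕ} (K : ℤ → ℤ) (hK : Monotone K) (c lo : Fin k → ℤ) (T : ℕ)
    (P : Finset (ℤ × ℤ))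
    (hP : ∀ p ∈ P, ∀ i, lo i ≤ K (p.1 + c i * p.2) ∧ K (p.1 + c i * p.2) < lo i + T) :
    (P.image fun p i => K (p.1 + c i * p.2)).card ≤ (k * T + 1) ^ 2 := by
  classical
  set S : (Fin k → ℤ) → Finset (Fin k × Fin T) :=
    fun f => univ.filter fun x => lo x.1 + (x.2 : ℕ) ≤ f x.1 with hS
  have hlt : ∀ f g : Fin k → ℤ, S f = S g → ∀ i, lo i ≤ g i → g i < lo i + T → g i ≤ f i := by
    intro f g h i h1 h2
    have h3 : (g i - lo i).toNat < T := by omega
    have h4 : (i, (⟨_, h3⟩ : Fin T)) ∈ S g := mem_filter.2 ⟨mem_univ _, by simp only; omega⟩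
    rw [← h] at h4
    have h5 := (mem_filter.1 h4).2
    simp only at h5
    omega
  have hinj : Set.InjOn S (P.image fun p i => K (p.1 + c i * p.2) : Finset (Fin k → ℤ)) := by
    have hb : ∀ f ∈ P.image fun p i => K (p.1 + c i * p.2),
        ∀ i, lo i ≤ f i ∧ f i < lo i + T := by
      intro f hf i
      obtain ⟨p, hp, rfl⟩ := mem_image.1 hf
      exact hP p hp i
    intro f hf g hg h
    funext i
    exact le_antisymm (hlt g f h.symm i (hb f hf i).1 (hb f hf i).2)
      (hlt f g h i (hb g hg i).1 (hb g hg i).2)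
  rw [← card_image_of_injOn hinj]
  refine (card_le_of_no_three _ fun s hs => ?_).trans (by simp)
  have mid : ∀ x ∈ s, ∀ y ∈ s, ∀ z ∈ s, x ≠ y → z ≠ y → c x.1 ≤ c y.1 → c y.1 ≤ c z.1 → False := by
    intro x hx y hy z hz hxy hzy h1 h2
    obtain ⟨a, ha, ea⟩ := hs (t := {x, z}) (by simp [insert_subset_iff, hx, hz])
    obtain ⟨b, hb, eb⟩ := hs (t := {y}) (by simp [hy])
    obtain ⟨f, hf, rfl⟩ := mem_image.1 ha
    obtain ⟨g, hg, rfl⟩ := mem_image.1 hb
    obtain ⟨p, -, rfl⟩ := mem_image.1 hf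
    obtain ⟨q, -, rfl⟩ := mem_image.1 hg
    have key : ∀ (w : Fin k × Fin T) (p q : ℤ × ℤ), w ∈ S (fun i => K (p.1 + c i * p.2)) →
        w ∉ S (fun i => K (q.1 + c i * q.2)) → q.1 + c w.1 * q.2 < p.1 + c w.1 * p.2 := by
      intro w p q h3 h4
      by_contra h5
      exact h4 (mem_filter.2 ⟨mem_univ _, (mem_filter.1 h3).2.trans (hK (not_lt.1 h5))⟩)
    have m1 : ∀ w ∈ s, w ∈ S (fun i => K (p.1 + c i * p.2)) ↔ w = x ∨ w = z := fun w hw => by
      rw [← mem_singleton (b := w) (a := z), ← mem_insert, ← ea, mem_inter, and_iff_right hw]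
    have m2 : ∀ w ∈ s, w ∈ S (fun i => K (q.1 + c i * q.2)) ↔ w = y := fun w hw => by
      rw [← mem_singleton, ← eb, mem_inter, and_iff_right hw]
    have a1 := key x p q ((m1 x hx).2 (Or.inl rfl)) fun h => hxy ((m2 x hx).1 h)
    have a2 := key z p q ((m1 z hz).2 (Or.inr rfl)) fun h => hzy ((m2 z hz).1 h)
    have a3 := key y q p ((m2 y hy).2 rfl) fun h =>
      ((m1 y hy).1 h).elim (fun e => hxy e.symm) fun e => hzy e.symm
    rcases le_total p.2 q.2 with h | h <;> nlinarith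
  by_contra hc
  obtain ⟨x, hx, y, hy, z, hz, hxy, hxz, hyz⟩ := two_lt_card.1 (not_le.1 hc)
  rcases le_total (c x.1) (c y.1) with h1 | h1 <;> rcases le_total (c y.1) (c z.1) with h2 | h2 <;>
    rcases le_total (c x.1) (c z.1) with h3 | h3
  · exact mid x hx y hy z hz hxy hyz.symm h1 h2
  · exact mid x hx y hy z hz hxy hyz.symm h1 h2
  · exact mid x hx z hz y hy hxz hyz h3 h2
  · exact mid z hz x hx y hy hxz.symm hxy.symm h3 h1
  · exact mid y hy x hx z hz hxy.symm hxz.symm h1 h3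
  · exact mid y hy z hz x hx hyz hxz h2 h3
  · exact mid z hz y hy x hx hyz.symm hxy h2 h1
  · exact mid z hz y hy x hx hyz.symm hxy h2 h1

end Pool.Agent.MP_a31471_co.Big
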